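import Mathlib

/-!
# Extremal point-line configurations that are not projective images of pieces of a lattice

Let `A` be the set of the numbers `a + b √2` with integers `0 ≤ a, b < N` and let `B` be the set of
the numbers `a + b √2` with integers `0 ≤ a, b < 4 N ^ 2`. The points `A × B` and the lines
`y = s x + t` with `s ∈ A`, `t ∈ B` form a configuration of `16 N ^ 6` points and `16 N ^ 6` lines with at
least `N ^ 8` incidences. Suppose that a projective transformation maps a set `P'` of its points into the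
lattice `ℤ ^ 2`. All cross-ratios of points of `P'` in one horizontal row are then rational, and this forces
the points `(a, b)` belonging to the row to lie on a conic or on a line; so there are at most `2 N`
of them. Hence `P'` contains at most a proportion of `2 / N` of all the points. The same argument applies
to the dual configuration.
-/

set_option autoImplicit false

open Finset

namespace Pool.Agent.Results.MP_fad2aa_co.NumberFieldGrid

/-- A subset of the plane is a line if it is `{(x, y) | a x + b y = c}` with `(a, b) ≠ (0, 0)`. -/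
def IsLine (l : Set (ℝ × ℝ)) : Prop :=
  ∃ a b c : ℝ, (a ≠ 0 ∨ b ≠ 0) ∧ l = {p | a * p.1 + b * p.2 = c}

/-- The non-vertical line `y = s x - t`; its dual point is `(s, t)`. -/
def line (q : ℝ × ℝ) : Set (ℝ × ℝ) := {p | p.2 = q.1 * p.1 - q.2}

open Classical in
/-- The number of pairs `(p, l)` with `p ∈ P`, `l ∈ L`, `p ∈ l`. -/
noncomputable def incidences (P : Finset (ℝ × ℝ)) (L : Finset (Set (ℝ × ℝ))) : ℕ :=
  ((P ×ˢ L).filter (fun x => x.1 ∈ x.2)).card

/-- The projective transformation with the matrix `M` (invertible) sends no point of `X` to the line at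
infinity and maps `X` into the lattice section `{1, ..., a} × {1, ..., b}`. -/
def MapsInto (M : Matrix (Fin 3) (Fin 3) ℝ) (X : Finset (ℝ × ℝ)) (a b : ℕ) : Prop :=
  M.det ≠ 0 ∧ ∀ p ∈ X, M 2 0 * p.1 + M 2 1 * p.2 + M 2 2 ≠ 0 ∧
    ∃ i j : ℕ, 1 ≤ i ∧ i ≤ a ∧ 1 ≤ j ∧ j ≤ b ∧
      (M 0 0 * p.1 + M 0 1 * p.2 + M 0 2) / (M 2 0 * p.1 + M 2 1 * p.2 + M 2 2) = i ∧
      (M 1 0 * p.1 + M 1 1 * p.2 + M 1 2) / (M 2 0 * p.1 + M 2 1 * p.2 + M 2 2) = j

/-- Some projective transformation maps the finite set `X` of points into a lattice section of size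
at most `s`. -/
def InLatticeSection (X : Finset (ℝ × ℝ)) (s : ℝ) : Prop :=
  ∃ (M : Matrix (Fin 3) (Fin 3) ℝ) (a b : ℕ), ((a * b : ℕ) : ℝ) ≤ s ∧ MapsInto M X a b

/-- Alternative (a): at least `c |P|` of the points are mapped by a projective transformation into a
lattice section of size at most `C |P|`. -/
def AlternativeA (P : Finset (ℝ × ℝ)) (c C : ℝ) : Prop :=
  ∃ P' ⊆ P, c * (P.card : ℝ) ≤ (P'.card : ℝ) ∧ InLatticeSection P' (C * (P.card : ℝ))

/-- Alternative (b): the same for the dual points `(s, t)` of at least `c |L|` non-vertical lines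
`y = s x - t` of `L`. -/
def AlternativeB (L : Finset (Set (ℝ × ℝ))) (c C : ℝ) : Prop :=
  ∃ D : Finset (ℝ × ℝ), (∀ q ∈ D, line q ∈ L) ∧ c * (L.card : ℝ) ≤ (D.card : ℝ) ∧
    InLatticeSection D (C * (L.card : ℝ))

/-! ### Numbers `a + b √2` -/

/-- `a + b √2` -/
noncomputable def φ (p : ℤ × ℤ) : ℝ := p.1 + p.2 * Real.sqrt 2

theorem sqrt_two_mul : Real.sqrt 2 * Real.sqrt 2 = 2 := Real.mul_self_sqrt (by norm_num)

theorem irr (a b : ℚ) (h : (a : ℝ) + b * Real.sqrt 2 = 0) : a = 0 ∧ b = 0 := by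
  have hb : b = 0 := by
    by_contra hb
    have hirr := irrational_sqrt_two
    apply hirr
    refine ⟨-a / b, ?_⟩
    have hb' : (b : ℝ) ≠ 0 := by exact_mod_cast hb
    push_cast
    field_simp
    linarith
  subst hb
  refine ⟨?_, rfl⟩
  simpa using h

theorem φ_inj : Function.Injective φ := by
  rintro ⟨a, b⟩ ⟨c, d⟩ h
  simp only [φ] at h
  have h1 := irr ((a - c : ℤ) : ℚ) ((b - d : ℤ) : ℚ) (by push_cast; linarith)
  obtain ⟨h1, h2⟩ := h1
  have h1' : a - c = 0 := by exact_mod_cast h1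
  have h2' : b - d = 0 := by exact_mod_cast h2
  ext
  · simp; omega
  · simp; omega

/-- The set of the pairs `(a, b)` with `0 ≤ a, b < N`. -/
noncomputable def box (N : ℕ) : Finset (ℤ × ℤ) := (Finset.Ico (0 : ℤ) N) ×ˢ (Finset.Ico (0 : ℤ) N)

theorem card_box (N : ℕ) : (box N).card = N ^ 2 := by
  simp [box, sq]

theorem mem_box {N : ℕ} {p : ℤ × ℤ} : p ∈ box N ↔ (0 ≤ p.1 ∧ p.1 < N) ∧ (0 ≤ p.2 ∧ p.2 < N) := by
  simp [box]

/-- a quadratic equation has at most two integral solutions -/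
theorem quad_card (S : Finset ℤ) (k l m : ℤ) (hk : k ≠ 0)
    (h : ∀ a ∈ S, k * a ^ 2 + l * a + m = 0) : S.card ≤ 2 := by
  by_contra hc
  push Not at hc
  obtain ⟨x, y, z, hx, hy, hz, hxy, hxz, hyz⟩ := Finset.two_lt_card_iff.mp hc
  have e1 := h x hx
  have e2 := h y hy
  have e3 := h z hz
  have f1 : (x - y) * (k * (x + y) + l) = 0 := by linear_combination e1 - e2
  have f2 : (x - z) * (k * (x + z) + l) = 0 := by linear_combination e1 - e3
  have g1 : k * (x + y) + l = 0 := by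
    rcases mul_eq_zero.mp f1 with h | h
    · exact absurd (sub_eq_zero.mp h) hxy
    · exact h
  have g2 : k * (x + z) + l = 0 := by
    rcases mul_eq_zero.mp f2 with h | h
    · exact absurd (sub_eq_zero.mp h) hxz
    · exact h
  have g3 : k * (y - z) = 0 := by linear_combination g1 - g2
  rcases mul_eq_zero.mp g3 with h | h
  · exact hk h
  · exact hyz (sub_eq_zero.mp h)

/-- A set of pairs in the box with at most two points in each row has at most `2 N` points. -/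
theorem rows_card {N : ℕ} (R : Finset (ℤ × ℤ)) (hR : R ⊆ box N)
    (h : ∀ b : ℤ, (R.filter (fun p => p.2 = b)).card ≤ 2) : R.card ≤ 2 * N := by
  have h1 : R.card ≤ 2 * (Finset.Ico (0 : ℤ) N).card := by
    apply Finset.card_le_mul_card_image_of_maps_to (f := fun p => p.2)
    · intro p hp
      have := mem_box.mp (hR hp)
      simpa using this.2
    · intro b _
      exact h b
  simpa using h1

theorem cols_card {N : ℕ} (R : Finset (ℤ × ℤ)) (hR : R ⊆ box N)
    (h : ∀ a : ℤ, (R.filter (fun p => p.1 = a)).card ≤ 2) : R.card ≤ 2 * N := by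
  have h1 : R.card ≤ 2 * (Finset.Ico (0 : ℤ) N).card := by
    apply Finset.card_le_mul_card_image_of_maps_to (f := fun p => p.1)
    · intro p hp
      have := mem_box.mp (hR hp)
      simpa using this.1
    · intro b _
      exact h b
  simpa using h1

/-- The relation between four members of a row. -/
def Rel (x1 x2 x3 x : ℤ × ℤ) : Prop :=
  ((x.1 - x1.1) * (x3.1 - x2.1) + 2 * ((x.2 - x1.2) * (x3.2 - x2.2))) *
      ((x.1 - x2.1) * (x3.2 - x1.2) + (x.2 - x2.2) * (x3.1 - x1.1)) =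
    ((x.1 - x1.1) * (x3.2 - x2.2) + (x.2 - x1.2) * (x3.1 - x2.1)) *
      ((x.1 - x2.1) * (x3.1 - x1.1) + 2 * ((x.2 - x2.2) * (x3.2 - x1.2)))

theorem row_bound {N : ℕ} (R : Finset (ℤ × ℤ)) (hR : R ⊆ box N)
    (h : ∀ x1 ∈ R, ∀ x2 ∈ R, ∀ x3 ∈ R, x1 ≠ x2 → x1 ≠ x3 → x2 ≠ x3 → ∀ x ∈ R, Rel x1 x2 x3 x) :
    R.card ≤ 2 * N := by
  by_cases hcol : ∃ x1 ∈ R, ∃ x2 ∈ R, ∃ x3 ∈ R,
      (x3.1 - x2.1) * (x3.2 - x1.2) - (x3.2 - x2.2) * (x3.1 - x1.1) ≠ 0
  · obtain ⟨x1, h1, x2, h2, x3, h3, hk⟩ := hcol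
    have h12 : x1 ≠ x2 := by rintro rfl; apply hk; ring
    have h13 : x1 ≠ x3 := by rintro rfl; apply hk; ring
    have h23 : x2 ≠ x3 := by rintro rfl; apply hk; ring
    have hx := h x1 h1 x2 h2 x3 h3 h12 h13 h23
    apply rows_card R hR
    intro b
    have hinj : Set.InjOn (fun p : ℤ × ℤ => p.1) (R.filter (fun p => p.2 = b) : Finset (ℤ × ℤ)) := by
      intro p hp q hq hpq
      simp only [coe_filter, Set.mem_ofPred_eq] at hp hq
      exact Prod.ext hpq (hp.2.trans hq.2.symm)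
    rw [← Finset.card_image_of_injOn hinj]
    set A1 := x3.1 - x2.1 with hA1
    set B1 := x3.2 - x2.2 with hB1
    set A2 := x3.1 - x1.1 with hA2
    set B2 := x3.2 - x1.2 with hB2
    apply quad_card _ (A1 * B2 - B1 * A2)
      ((A1 * (-x2.1 * B2 + (b - x2.2) * A2) + (-x1.1 * A1 + 2 * ((b - x1.2) * B1)) * B2) -
        (B1 * (-x2.1 * A2 + 2 * ((b - x2.2) * B2)) + (-x1.1 * B1 + (b - x1.2) * A1) * A2))
      ((-x1.1 * A1 + 2 * ((b - x1.2) * B1)) * (-x2.1 * B2 + (b - x2.2) * A2) -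
        (-x1.1 * B1 + (b - x1.2) * A1) * (-x2.1 * A2 + 2 * ((b - x2.2) * B2)))
      hk
    intro a ha
    rw [Finset.mem_image] at ha
    obtain ⟨p, hp, rfl⟩ := ha
    rw [Finset.mem_filter] at hp
    have hrel := hx p hp.1
    unfold Rel at hrel
    rw [hp.2, ← hA1, ← hB1, ← hA2, ← hB2] at hrel
    linear_combination hrel
  · push Not at hcol
    by_cases hc : R.card ≤ 1
    · rcases Nat.eq_zero_or_pos N with hN | hN
      · subst hN
        have : R = ∅ := by
          rw [Finset.eq_empty_iff_forall_notMem]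
          intro p hp
          have := mem_box.mp (hR hp)
          simp at this
          omega
        simp [this]
      · omega
    · push Not at hc
      obtain ⟨x1, h1, x2, h2, h12⟩ := Finset.one_lt_card.mp hc
      have hx := fun x hx => hcol x1 h1 x2 h2 x hx
      by_cases hb : x1.2 = x2.2
      · -- horizontal line: all the points have the same second coordinate
        have ha : x1.1 ≠ x2.1 := fun h => h12 (Prod.ext h hb)
        apply cols_card R hR
        intro a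
        apply le_trans (b := 1) _ (by norm_num)
        rw [Finset.card_le_one]
        intro p hp q hq
        rw [Finset.mem_filter] at hp hq
        have e1 := hx p hp.1
        have e2 := hx q hq.1
        have f1 : (x1.1 - x2.1) * (p.2 - x1.2) = 0 := by
          rw [← hb] at e1
          linear_combination e1
        have f2 : (x1.1 - x2.1) * (q.2 - x1.2) = 0 := by
          rw [← hb] at e2
          linear_combination e2
        rcases mul_eq_zero.mp f1 with h | h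
        · exact absurd (sub_eq_zero.mp h) ha
        rcases mul_eq_zero.mp f2 with h' | h'
        · exact absurd (sub_eq_zero.mp h') ha
        exact Prod.ext (hp.2.trans hq.2.symm) (by omega)
      · apply rows_card R hR
        intro b
        apply le_trans (b := 1) _ (by norm_num)
        rw [Finset.card_le_one]
        intro p hp q hq
        rw [Finset.mem_filter] at hp hq
        have e1 := hx p hp.1
        have e2 := hx q hq.1
        have f1 : (p.1 - q.1) * (x2.2 - x1.2) = 0 := by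
          rw [hp.2] at e1
          rw [hq.2] at e2
          linear_combination e1 - e2
        rcases mul_eq_zero.mp f1 with h | h
        · exact Prod.ext (sub_eq_zero.mp h) (hp.2.trans hq.2.symm)
        · exact absurd (sub_eq_zero.mp h).symm hb

/-! ### Rational cross-ratios -/

theorem mobius_rel {α β γ δ : ℝ} (hΔ : α * δ - β * γ ≠ 0) {x1 x2 x3 x : ℤ × ℤ} {n1 n2 n3 n : ℤ}
    (w1 : γ * φ x1 + δ ≠ 0) (w2 : γ * φ x2 + δ ≠ 0) (w3 : γ * φ x3 + δ ≠ 0) (w : γ * φ x + δ ≠ 0)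
    (h1 : α * φ x1 + β = n1 * (γ * φ x1 + δ)) (h2 : α * φ x2 + β = n2 * (γ * φ x2 + δ))
    (h3 : α * φ x3 + β = n3 * (γ * φ x3 + δ)) (h : α * φ x + β = n * (γ * φ x + δ)) :
    Rel x1 x2 x3 x := by
  set W1 := γ * φ x1 + δ with hW1
  set W2 := γ * φ x2 + δ with hW2
  set W3 := γ * φ x3 + δ with hW3
  set W := γ * φ x + δ with hW
  have key : ∀ (X Y : ℝ) (m k : ℤ) (U V : ℝ), U = γ * X + δ → V = γ * Y + δ →
      α * X + β = m * U → α * Y + β = k * V →
      (α * δ - β * γ) * (X - Y) = (m - k) * (U * V) := by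
    intro X Y m k U V hU hV h h'
    have e1 : (m : ℝ) * (U * V) = (α * X + β) * V := by rw [h]; ring
    have e2 : (k : ℝ) * (U * V) = (α * Y + β) * U := by rw [h']; ring
    have e3 : ((m : ℝ) - k) * (U * V) = (α * X + β) * V - (α * Y + β) * U := by
      rw [← e1, ← e2]; ring
    rw [e3, hU, hV]; ring
  have k1 := key (φ x) (φ x1) n n1 W W1 hW hW1 h h1
  have k2 := key (φ x3) (φ x2) n3 n2 W3 W2 hW3 hW2 h3 h2
  have k3 := key (φ x) (φ x2) n n2 W W2 hW hW2 h h2
  have k4 := key (φ x3) (φ x1) n3 n1 W3 W1 hW3 hW1 h3 h1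
  set Δ := α * δ - β * γ with hΔd
  have hP : W * W1 * W2 * W3 ≠ 0 := mul_ne_zero (mul_ne_zero (mul_ne_zero w w1) w2) w3
  -- the two products
  have p1 : Δ ^ 2 * ((φ x - φ x1) * (φ x3 - φ x2)) =
      ((n - n1) * (n3 - n2)) * (W * W1 * W2 * W3) := by
    have : Δ ^ 2 * ((φ x - φ x1) * (φ x3 - φ x2)) =
      (Δ * (φ x - φ x1)) * (Δ * (φ x3 - φ x2)) := by ring
    rw [this, k1, k2]; ring
  have p2 : Δ ^ 2 * ((φ x - φ x2) * (φ x3 - φ x1)) =
      ((n - n2) * (n3 - n1)) * (W * W1 * W2 * W3) := by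
    have : Δ ^ 2 * ((φ x - φ x2) * (φ x3 - φ x1)) =
      (Δ * (φ x - φ x2)) * (Δ * (φ x3 - φ x1)) := by ring
    rw [this, k3, k4]; ring
  set U1 : ℤ := (x.1 - x1.1) * (x3.1 - x2.1) + 2 * ((x.2 - x1.2) * (x3.2 - x2.2)) with hU1
  set U2 : ℤ := (x.1 - x1.1) * (x3.2 - x2.2) + (x.2 - x1.2) * (x3.1 - x2.1) with hU2
  set V1 : ℤ := (x.1 - x2.1) * (x3.1 - x1.1) + 2 * ((x.2 - x2.2) * (x3.2 - x1.2)) with hV1
  set V2 : ℤ := (x.1 - x2.1) * (x3.2 - x1.2) + (x.2 - x2.2) * (x3.1 - x1.1) with hV2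
  have hU : (φ x - φ x1) * (φ x3 - φ x2) = U1 + U2 * Real.sqrt 2 := by
    simp only [φ, hU1, hU2]
    push_cast
    linear_combination ((x.2 - x1.2 : ℝ) * (x3.2 - x2.2)) * sqrt_two_mul
  have hV : (φ x - φ x2) * (φ x3 - φ x1) = V1 + V2 * Real.sqrt 2 := by
    simp only [φ, hV1, hV2]
    push_cast
    linear_combination ((x.2 - x2.2 : ℝ) * (x3.2 - x1.2)) * sqrt_two_mul
  set r : ℤ := (n - n1) * (n3 - n2) with hr
  set r' : ℤ := (n - n2) * (n3 - n1) with hr'
  rw [hU] at p1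
  rw [hV] at p2
  have p1' : Δ ^ 2 * ((U1 : ℝ) + U2 * Real.sqrt 2) = (r : ℝ) * (W * W1 * W2 * W3) := by
    rw [p1, hr]; push_cast; ring
  have p2' : Δ ^ 2 * ((V1 : ℝ) + V2 * Real.sqrt 2) = (r' : ℝ) * (W * W1 * W2 * W3) := by
    rw [p2, hr']; push_cast; ring
  have e : (r' : ℝ) * ((U1 : ℝ) + U2 * Real.sqrt 2) = r * ((V1 : ℝ) + V2 * Real.sqrt 2) := by
    have hΔ2 : Δ ^ 2 ≠ 0 := pow_ne_zero 2 hΔ
    apply mul_left_cancel₀ hΔ2
    have a1 : Δ ^ 2 * ((r' : ℝ) * ((U1 : ℝ) + U2 * Real.sqrt 2)) =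
      r' * (Δ ^ 2 * ((U1 : ℝ) + U2 * Real.sqrt 2)) := by ring
    have a2 : Δ ^ 2 * ((r : ℝ) * ((V1 : ℝ) + V2 * Real.sqrt 2)) =
      r * (Δ ^ 2 * ((V1 : ℝ) + V2 * Real.sqrt 2)) := by ring
    rw [a1, a2, p1', p2']; ring
  have e' := irr ((r' * U1 - r * V1 : ℤ) : ℚ) ((r' * U2 - r * V2 : ℤ) : ℚ)
    (by push_cast; linear_combination e)
  obtain ⟨e1, e2⟩ := e'
  have e1' : r' * U1 - r * V1 = 0 := by exact_mod_cast e1
  have e2' : r' * U2 - r * V2 = 0 := by exact_mod_cast e2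
  have goal' : U1 * V2 = U2 * V1 := by
    by_cases hr0 : r' = 0
    · have : Δ ^ 2 * ((V1 : ℝ) + V2 * Real.sqrt 2) = 0 := by rw [p2', hr0]; simp
      have hz : (V1 : ℝ) + V2 * Real.sqrt 2 = 0 := by
        rcases mul_eq_zero.mp this with h | h
        · exact absurd h (pow_ne_zero 2 hΔ)
        · exact h
      have hz' := irr (V1 : ℚ) (V2 : ℚ) (by push_cast; exact hz)
      have v1 : V1 = 0 := by exact_mod_cast hz'.1
      have v2 : V2 = 0 := by exact_mod_cast hz'.2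
      rw [v1, v2]; ring
    · apply mul_left_cancel₀ hr0
      linear_combination V2 * e1' - V1 * e2'
  exact goal'

theorem row_of_mapsInto {N : ℕ} {M : Matrix (Fin 3) (Fin 3) ℝ} {X : Finset (ℝ × ℝ)} {a b : ℕ}
    (hM : MapsInto M X a b) (y : ℝ) (R : Finset (ℤ × ℤ)) (hR : R ⊆ box N)
    (hX : ∀ p ∈ R, (φ p, y) ∈ X) : R.card ≤ 2 * N := by
  apply row_bound R hR
  obtain ⟨hdet, hmap⟩ := hM
  intro x1 h1 x2 h2 x3 h3 _ _ _ x hx
  obtain ⟨w1, i1, j1, -, -, -, -, u1, v1⟩ := hmap _ (hX x1 h1)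
  obtain ⟨w2, i2, j2, -, -, -, -, u2, v2⟩ := hmap _ (hX x2 h2)
  obtain ⟨w3, i3, j3, -, -, -, -, u3, v3⟩ := hmap _ (hX x3 h3)
  obtain ⟨w, i, j, -, -, -, -, u, v⟩ := hmap _ (hX x hx)
  simp only at w1 w2 w3 w u1 u2 u3 u v1 v2 v3 v
  rw [div_eq_iff w1] at u1 v1
  rw [div_eq_iff w2] at u2 v2
  rw [div_eq_iff w3] at u3 v3
  rw [div_eq_iff w] at u v
  have W : ∀ z : ℝ, M 2 0 * z + M 2 1 * y + M 2 2 = M 2 0 * z + (M 2 1 * y + M 2 2) := fun z => by ring
  have U : ∀ z : ℝ, M 0 0 * z + M 0 1 * y + M 0 2 = M 0 0 * z + (M 0 1 * y + M 0 2) := fun z => by ring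
  have V : ∀ z : ℝ, M 1 0 * z + M 1 1 * y + M 1 2 = M 1 0 * z + (M 1 1 * y + M 1 2) := fun z => by ring
  rw [W] at w1 w2 w3 w u1 u2 u3 u v1 v2 v3 v
  rw [U] at u1 u2 u3 u
  rw [V] at v1 v2 v3 v
  by_cases c0 : M 0 0 * (M 2 1 * y + M 2 2) - (M 0 1 * y + M 0 2) * M 2 0 ≠ 0
  · exact mobius_rel (n1 := i1) (n2 := i2) (n3 := i3) (n := i) c0 w1 w2 w3 w
      (by exact_mod_cast u1) (by exact_mod_cast u2) (by exact_mod_cast u3) (by exact_mod_cast u)
  by_cases c1 : M 1 0 * (M 2 1 * y + M 2 2) - (M 1 1 * y + M 1 2) * M 2 0 ≠ 0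
  · exact mobius_rel (n1 := j1) (n2 := j2) (n3 := j3) (n := j) c1 w1 w2 w3 w
      (by exact_mod_cast v1) (by exact_mod_cast v2) (by exact_mod_cast v3) (by exact_mod_cast v)
  exfalso
  push Not at c0 c1
  have c2 : M 0 0 * (M 1 1 * y + M 1 2) - M 1 0 * (M 0 1 * y + M 0 2) = 0 := by
    apply mul_left_cancel₀ w
    linear_combination (M 1 0 * φ x + (M 1 1 * y + M 1 2)) * c0 -
      (M 0 0 * φ x + (M 0 1 * y + M 0 2)) * c1
  apply hdet
  rw [Matrix.det_fin_three]
  linear_combination M 1 1 * c0 - M 0 1 * c1 - M 2 1 * c2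

theorem card_of_mapsInto {N : ℕ} {M : Matrix (Fin 3) (Fin 3) ℝ} {X : Finset (ℝ × ℝ)} {a b : ℕ}
    (hM : MapsInto M X a b) (Y : Finset ℝ) (hX : X ⊆ ((box N).image φ) ×ˢ Y) :
    X.card ≤ 2 * N * Y.card := by
  apply Finset.card_le_mul_card_image_of_maps_to (f := fun p => p.2)
  · intro p hp
    exact (Finset.mem_product.mp (hX hp)).2
  · intro y _
    set R := (box N).filter (fun p => (φ p, y) ∈ X) with hRdef
    have h1 : X.filter (fun p => p.2 = y) ⊆ R.image (fun p => (φ p, y)) := by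
      intro p hp
      rw [Finset.mem_filter] at hp
      have := (Finset.mem_product.mp (hX hp.1)).1
      rw [Finset.mem_image] at this
      obtain ⟨q, hq, hqp⟩ := this
      have hp' : (φ q, y) = p := Prod.ext hqp hp.2.symm
      rw [Finset.mem_image]
      refine ⟨q, ?_, hp'⟩
      rw [hRdef, Finset.mem_filter]
      exact ⟨hq, by rw [hp']; exact hp.1⟩
    refine (Finset.card_le_card h1).trans (Finset.card_image_le.trans ?_)
    apply row_of_mapsInto hM y R (Finset.filter_subset _ _)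
    intro p hp
    exact (Finset.mem_filter.mp hp).2

/-! ### The configuration -/

/-- the numbers `a + b √2`, `0 ≤ a, b < N` -/
noncomputable def A (N : ℕ) : Finset ℝ := (box N).image φ

theorem card_A (N : ℕ) : (A N).card = N ^ 2 := by
  rw [A, Finset.card_image_of_injective _ φ_inj, card_box]

/-- the points -/
noncomputable def pts (N : ℕ) : Finset (ℝ × ℝ) := A N ×ˢ A (4 * N ^ 2)

/-- the dual points of the lines -/
noncomputable def duals (N : ℕ) : Finset (ℝ × ℝ) := A N ×ˢ (A (4 * N ^ 2)).image (fun t => -t)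

theorem line_inj : Function.Injective line := by
  intro q q' h
  have h0 : ((0 : ℝ), -q.2) ∈ line q := by simp [line]
  have h1 : ((1 : ℝ), q.1 - q.2) ∈ line q := by simp [line]
  rw [h] at h0 h1
  simp only [line, Set.mem_ofPred_eq] at h0 h1
  have e2 : q.2 = q'.2 := by linarith
  have e1 : q.1 = q'.1 := by linarith
  exact Prod.ext e1 e2

open Classical in
/-- the lines -/
noncomputable def lines (N : ℕ) : Finset (Set (ℝ × ℝ)) := (duals N).image line

theorem card_pts (N : ℕ) : (pts N).card = 16 * N ^ 6 := by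
  rw [pts, Finset.card_product, card_A, card_A]; ring

theorem card_duals (N : ℕ) : (duals N).card = 16 * N ^ 6 := by
  rw [duals, Finset.card_product, card_A, Finset.card_image_of_injective _ neg_injective, card_A]; ring

theorem card_lines (N : ℕ) : (lines N).card = 16 * N ^ 6 := by
  rw [lines, Finset.card_image_of_injective _ line_inj, card_duals]

theorem isLine_line (q : ℝ × ℝ) : IsLine (line q) := by
  refine ⟨q.1, -1, q.2, Or.inr (by norm_num), ?_⟩
  ext p
  simp only [line, Set.mem_ofPred_eq]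
  constructor <;> intro h <;> linarith

/-- the point and the line of an incidence -/
noncomputable def inc (x : (ℤ × ℤ) × (ℤ × ℤ) × (ℤ × ℤ)) : (ℝ × ℝ) × Set (ℝ × ℝ) :=
  ((φ x.1, φ x.2.1 * φ x.1 + φ x.2.2), line (φ x.2.1, -φ x.2.2))

theorem inc_inj : Function.Injective inc := by
  rintro ⟨p, s, t⟩ ⟨p', s', t'⟩ h
  simp only [inc, Prod.mk.injEq] at h
  obtain ⟨⟨h1, -⟩, h3⟩ := h
  have h4 := line_inj h3
  simp only [Prod.mk.injEq, neg_inj] at h4
  rw [φ_inj h1, φ_inj h4.1, φ_inj h4.2]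

theorem inc_lower (N : ℕ) : N ^ 8 ≤ incidences (pts N) (lines N) := by
  classical
  have h : ((box N) ×ˢ (box N) ×ˢ (box (N ^ 2))).card = N ^ 8 := by
    rw [Finset.card_product, Finset.card_product, card_box, card_box]; ring
  rw [← h, ← Finset.card_image_of_injective _ inc_inj]
  unfold incidences
  apply Finset.card_le_card
  intro z hz
  rw [Finset.mem_image] at hz
  obtain ⟨⟨p, s, t⟩, hx, rfl⟩ := hz
  simp only [Finset.mem_product] at hx
  obtain ⟨hp, hs, ht⟩ := hx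
  rw [Finset.mem_filter, Finset.mem_product]
  simp only [inc]
  have hN : 0 < N := by
    rw [mem_box] at hp
    omega
  refine ⟨⟨?_, ?_⟩, ?_⟩
  · rw [pts, Finset.mem_product]
    refine ⟨Finset.mem_image_of_mem _ hp, ?_⟩
    simp only
    have : φ s * φ p + φ t =
        φ (s.1 * p.1 + 2 * (s.2 * p.2) + t.1, s.1 * p.2 + s.2 * p.1 + t.2) := by
      simp only [φ]
      push_cast
      linear_combination ((s.2 : ℝ) * p.2) * sqrt_two_mul
    rw [this]
    apply Finset.mem_image_of_mem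
    rw [mem_box] at hp hs ht ⊢
    obtain ⟨⟨p1, p2⟩, p3, p4⟩ := hp
    obtain ⟨⟨s1, s2⟩, s3, s4⟩ := hs
    obtain ⟨⟨t1, t2⟩, t3, t4⟩ := ht
    push_cast at t2 t4 ⊢
    have b1 : s.1 * p.1 ≤ (N : ℤ) * N := mul_le_mul s2.le p2.le p1 (by positivity)
    have b2 : s.2 * p.2 ≤ (N : ℤ) * N := mul_le_mul s4.le p4.le p3 (by positivity)
    have b3 : s.1 * p.2 ≤ (N : ℤ) * N := mul_le_mul s2.le p4.le p3 (by positivity)
    have b4 : s.2 * p.1 ≤ (N : ℤ) * N := mul_le_mul s4.le p2.le p1 (by positivity)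
    have c1 := mul_nonneg s1 p1
    have c2 := mul_nonneg s3 p3
    have c3 := mul_nonneg s1 p3
    have c4 := mul_nonneg s3 p1
    refine ⟨⟨by linarith, by nlinarith⟩, by linarith, by nlinarith⟩
  · rw [lines, Finset.mem_image]
    refine ⟨(φ s, -φ t), ?_, rfl⟩
    rw [duals, Finset.mem_product]
    refine ⟨Finset.mem_image_of_mem _ hs, ?_⟩
    simp only
    apply Finset.mem_image_of_mem (fun t => -t)
    apply Finset.mem_image_of_mem
    rw [mem_box] at ht ⊢
    push_cast at ht ⊢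
    have : (0 : ℤ) ≤ (N : ℤ) ^ 2 := by positivity
    omega
  · simp [line]

theorem no_a {N : ℕ} {c : ℝ} (hc : 2 < c * N) (C : ℝ) : ¬ AlternativeA (pts N) c C := by
  rintro ⟨P', hP', hcard, M, a, b, -, hM⟩
  have h1 := card_of_mapsInto (N := N) hM (A (4 * N ^ 2)) hP'
  rw [card_A] at h1
  rw [card_pts] at hcard
  have h2 : (P'.card : ℝ) ≤ 2 * N * (4 * N ^ 2) ^ 2 := by exact_mod_cast h1
  push_cast at hcard
  have hN : (0 : ℝ) < N := by
    rcases Nat.eq_zero_or_pos N with h | h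
    · subst h; simp at hc; linarith
    · exact_mod_cast h
  have h3 : c * N * (16 * (N : ℝ) ^ 5) ≤ 2 * (16 * (N : ℝ) ^ 5) := by nlinarith
  have h4 : (0 : ℝ) < 16 * (N : ℝ) ^ 5 := by positivity
  have h5 := le_of_mul_le_mul_right h3 h4
  linarith

theorem no_b {N : ℕ} {c : ℝ} (hc : 2 < c * N) (C : ℝ) : ¬ AlternativeB (lines N) c C := by
  rintro ⟨D, hD, hcard, M, a, b, -, hM⟩
  have hD' : D ⊆ duals N := by
    intro q hq
    have := hD q hq
    rw [lines, Finset.mem_image] at this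
    obtain ⟨q', hq', h⟩ := this
    rw [← line_inj h]
    exact hq'
  have h1 := card_of_mapsInto (N := N) hM ((A (4 * N ^ 2)).image (fun t => -t)) hD'
  rw [Finset.card_image_of_injective _ neg_injective, card_A] at h1
  rw [card_lines] at hcard
  have h2 : (D.card : ℝ) ≤ 2 * N * (4 * N ^ 2) ^ 2 := by exact_mod_cast h1
  push_cast at hcard
  have hN : (0 : ℝ) < N := by
    rcases Nat.eq_zero_or_pos N with h | h
    · subst h; simp at hc; linarith
    · exact_mod_cast h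
  have h3 : c * N * (16 * (N : ℝ) ^ 5) ≤ 2 * (16 * (N : ℝ) ^ 5) := by nlinarith
  have h4 : (0 : ℝ) < 16 * (N : ℝ) ^ 5 := by positivity
  have h5 := le_of_mul_le_mul_right h3 h4
  linarith

/-- The negated form of Q1, with as many points as lines: there are `C₁, c₂, c₃ > 0` such that for every
`c > 0` and every `N` there are a set `P` of `n` points and a set `L` of `n` lines, `n ≥ N`, with
`c₂ √n ≤ n ≤ C₁ n ^ 2` and with at least `c₃ n ^ (2 / 3) n ^ (2 / 3)` incidences, for which neither (a) nor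
(b) holds, for any `C`. -/
theorem result : ∃ C₁ c₂ c₃ : ℝ, 0 < C₁ ∧ 0 < c₂ ∧ 0 < c₃ ∧ ∀ c : ℝ, 0 < c → ∀ N : ℕ,
    ∃ (P : Finset (ℝ × ℝ)) (L : Finset (Set (ℝ × ℝ))), (∀ l ∈ L, IsLine l) ∧
      N ≤ P.card ∧ N ≤ L.card ∧ P.card = L.card ∧
      c₂ * Real.sqrt L.card ≤ P.card ∧ (P.card : ℝ) ≤ C₁ * (L.card : ℝ) ^ 2 ∧
      c₃ * ((P.card : ℝ) ^ (2 / 3 : ℝ) * (L.card : ℝ) ^ (2 / 3 : ℝ)) ≤ (incidences P L : ℝ) ∧
      ∀ C : ℝ, 0 < C → ¬ AlternativeA P c C ∧ ¬ AlternativeB L c C := by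
  refine ⟨1, 1, 1 / 81, one_pos, one_pos, by norm_num, ?_⟩
  intro c hc N₀
  obtain ⟨n1, hn1⟩ := exists_nat_gt (2 / c)
  set N := max n1 (N₀ + 1) with hN
  have hN1 : 1 ≤ N := le_trans (by omega) (le_max_right n1 (N₀ + 1))
  have hNN : N₀ ≤ N := le_trans (by omega) (le_max_right n1 (N₀ + 1))
  have hcN : 2 < c * N := by
    have h1 : (n1 : ℝ) ≤ N := by exact_mod_cast le_max_left n1 (N₀ + 1)
    rw [div_lt_iff₀ hc] at hn1
    nlinarith
  have hbig : N ≤ 16 * N ^ 6 := by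
    have h : N ^ 1 ≤ N ^ 6 := Nat.pow_le_pow_right hN1 (by norm_num)
    rw [pow_one] at h
    omega
  have hone : (1 : ℝ) ≤ ((16 * N ^ 6 : ℕ) : ℝ) := by
    exact_mod_cast le_trans hN1 hbig
  refine ⟨pts N, lines N, ?_, ?_, ?_, ?_, ?_, ?_, ?_, fun C _ => ⟨no_a hcN C, no_b hcN C⟩⟩
  · intro l hl
    classical
    rw [lines, Finset.mem_image] at hl
    obtain ⟨q, -, rfl⟩ := hl
    exact isLine_line q
  · rw [card_pts]; omega
  · rw [card_lines]; omega
  · rw [card_pts, card_lines]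
  · rw [card_pts, card_lines, one_mul]
    rw [Real.sqrt_le_left (by linarith)]
    nlinarith
  · rw [card_pts, card_lines, one_mul]
    nlinarith
  · rw [card_pts, card_lines]
    have h8 : ((N ^ 8 : ℕ) : ℝ) ≤ (incidences (pts N) (lines N) : ℝ) := by
      exact_mod_cast inc_lower N
    have hle : ((16 * N ^ 6 : ℕ) : ℝ) ^ (2 / 3 : ℝ) ≤ 9 * (N : ℝ) ^ 4 := by
      have e : (9 * (N : ℝ) ^ 4) = ((3 * (N : ℝ) ^ 2) ^ 3) ^ (2 / 3 : ℝ) := by
        rw [← Real.rpow_natCast (3 * (N : ℝ) ^ 2) 3, ← Real.rpow_mul (by positivity)]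
        norm_num
        ring
      rw [e]
      apply Real.rpow_le_rpow (by positivity) _ (by norm_num)
      push_cast
      have : (0 : ℝ) ≤ (N : ℝ) ^ 6 := by positivity
      nlinarith
    have hnn : (0 : ℝ) ≤ ((16 * N ^ 6 : ℕ) : ℝ) ^ (2 / 3 : ℝ) := by positivity
    calc 1 / 81 * (((16 * N ^ 6 : ℕ) : ℝ) ^ (2 / 3 : ℝ) * ((16 * N ^ 6 : ℕ) : ℝ) ^ (2 / 3 : ℝ))
        ≤ 1 / 81 * ((9 * (N : ℝ) ^ 4) * (9 * (N : ℝ) ^ 4)) := by
          apply mul_le_mul_of_nonneg_left _ (by norm_num)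
          exact mul_le_mul hle hle hnn (by positivity)
      _ = ((N ^ 8 : ℕ) : ℝ) := by push_cast; ring
      _ ≤ _ := h8

end Pool.Agent.Results.MP_fad2aa_co.NumberFieldGrid
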